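import Pool.Agent.Q292.LC.Stm3

/-! Project LC: the distance on the torus. -/

set_option autoImplicit false

namespace Pool.Agent.Q151.LC

open Finset Equiv Matrix Q292.LC

variable {d L : ℕ}

lemma td_comm (x y : Fin d → ZMod L) : td x y = td y x := by
  unfold td
  apply sum_congr rfl
  intro i _
  rw [← neg_sub (y i) (x i), ZMod.natAbs_valMinAbs_neg]

lemma td_self (x : Fin d → ZMod L) : td x x = 0 := by
  unfold td
  apply sum_eq_zero
  intro i _
  rw [sub_self, ZMod.valMinAbs_zero]; rfl

lemma td_tri (x y z : Fin d → ZMod L) : td x z ≤ td x y + td y z := by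
  unfold td
  rw [← sum_add_distrib]
  apply sum_le_sum
  intro i _
  have h : x i - z i = (x i - y i) + (y i - z i) := by ring
  rw [h]
  exact (ZMod.natAbs_valMinAbs_add_le _ _).trans (Int.natAbs_add_le _ _)

lemma td_trans (x y v : Fin d → ZMod L) : td (x + v) (y + v) = td x y := by
  unfold td
  apply sum_congr rfl
  intro i _
  rw [Pi.add_apply, Pi.add_apply, add_sub_add_right_eq_sub]

lemma td_eq_zero {x y : Fin d → ZMod L} (h : td x y = 0) : x = y := by
  funext i
  unfold td at h
  rw [sum_eq_zero_iff] at h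
  have h1 := h i (mem_univ _)
  rw [Int.natAbs_eq_zero, ZMod.valMinAbs_eq_zero] at h1
  exact sub_eq_zero.1 h1

variable [NeZero L]

lemma mem_bal {x y : Fin d → ZMod L} {r : ℕ} : y ∈ bal x r ↔ td x y ≤ r := by
  unfold bal; rw [mem_filter]; exact ⟨fun h => h.2, fun h => ⟨mem_univ _, h⟩⟩

lemma bal_card (x : Fin d → ZMod L) (r : ℕ) : (bal x r).card = (bal (0 : Fin d → ZMod L) r).card := by
  symm
  apply card_nbij' (fun y => y + x) (fun y => y - x)
  · intro y hy
    rw [mem_coe, mem_bal] at hy ⊢
    have := td_trans 0 y x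
    rw [zero_add] at this
    rw [this]; exact hy
  · intro y hy
    rw [mem_coe, mem_bal] at hy ⊢
    have := td_trans 0 (y - x) x
    rw [zero_add, sub_add_cancel] at this
    rw [← this]; exact hy
  · intro y _; simp
  · intro y _; simp

lemma bal_card_pos (r : ℕ) : 0 < (bal (0 : Fin d → ZMod L) r).card := by
  rw [card_pos]
  exact ⟨0, mem_bal.2 (by rw [td_self]; exact Nat.zero_le _)⟩

end Pool.Agent.Q151.LC
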