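import Pool.Agent.Q151.LC.Con1
import Pool.Agent.Q151.LC.Tor

/-! Project LC: job NEA. -/

set_option autoImplicit false

namespace Pool.Agent.Q151.LC

open Finset Equiv Matrix Q292.LC

section
variable {V : Type} [Fintype V] [DecidableEq V]

/-- `T Tᵀ` -/
def KK (T : Matrix V V ℝ) (x x' : V) : ℝ := ∑ y, T x y * T x' y

lemma var_eq (T : Matrix V V ℝ) (hrow : ∀ x, ∑ y, T x y = 1) (hcol : ∀ y, ∑ x, T x y = 1) (f : V → ℝ) :
    ∑ x, (f x) ^ 2 - ∑ y, (vecMul f T y) ^ 2 = 1 / 2 * ∑ x, ∑ x', KK T x x' * (f x - f x') ^ 2 := by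
  have h1 : ∑ y, (vecMul f T y) ^ 2 = ∑ x, ∑ x', KK T x x' * (f x * f x') := by
    unfold KK
    have : ∀ y, (vecMul f T y) ^ 2 = ∑ x, ∑ x', (T x y * T x' y) * (f x * f x') := by
      intro y
      rw [Matrix.vecMul, dotProduct, sq, sum_mul_sum]
      apply sum_congr rfl
      intro x _
      apply sum_congr rfl
      intro x' _
      ring
    simp only [this]
    rw [sum_comm]
    apply sum_congr rfl
    intro x _
    rw [sum_comm]
    apply sum_congr rfl
    intro x' _
    rw [sum_mul]
  have hK1 : ∀ x, ∑ x', KK T x x' = 1 := by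
    intro x
    unfold KK
    rw [sum_comm]
    simp only [← mul_sum, hcol, mul_one, hrow]
  have hK2 : ∀ x', ∑ x, KK T x x' = 1 := by
    intro x'
    unfold KK
    rw [sum_comm]
    simp only [← sum_mul, hcol, one_mul, hrow]
  have h2 : ∑ x, ∑ x', KK T x x' * (f x - f x') ^ 2 =
      ∑ x, ∑ x', KK T x x' * (f x) ^ 2 + ∑ x, ∑ x', KK T x x' * (f x') ^ 2 - 2 * ∑ x, ∑ x', KK T x x' * (f x * f x') := by
    rw [mul_sum, ← sum_add_distrib, ← sum_sub_distrib]
    apply sum_congr rfl
    intro x _
    rw [mul_sum, ← sum_add_distrib, ← sum_sub_distrib]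
    apply sum_congr rfl
    intro x' _
    ring
  have h3 : ∑ x, ∑ x', KK T x x' * (f x) ^ 2 = ∑ x, (f x) ^ 2 := by
    apply sum_congr rfl
    intro x _
    rw [← sum_mul, hK1, one_mul]
  have h4 : ∑ x, ∑ x', KK T x x' * (f x') ^ 2 = ∑ x, (f x) ^ 2 := by
    rw [sum_comm]
    apply sum_congr rfl
    intro x _
    rw [← sum_mul, hK2, one_mul]
  rw [h2, h3, h4, h1]
  ring

lemma nea_gen (T : Matrix V V ℝ) (hnn : ∀ x y, 0 ≤ T x y) (hrow : ∀ x, ∑ y, T x y = 1) (hcol : ∀ y, ∑ x, T x y = 1)
    (f : V → ℝ) (near : V → V → Prop) [∀ x y, Decidable (near x y)] (p b : ℝ) (hp : 0 < p) (hb : 0 < b)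
    (hY : ∀ x x', near x x' → ∃ Y : Finset V, b / 2 ≤ Y.card ∧ ∀ y ∈ Y, p / 2 ≤ T x y ∧ p / 2 ≤ T x' y)
    (hn1 : ∀ x, ((univ.filter (fun x' => near x x')).card : ℝ) ≤ b)
    (hn2 : ∀ x', ((univ.filter (fun x => near x x')).card : ℝ) ≤ b) :
    (∑ y, (vecMul f T y) ^ 2 + p ^ 2 * b / 16 * ∑ x, ∑ x', (if near x x' then (f x - f x') ^ 2 else 0) ≤ ∑ x, (f x) ^ 2) ∧
    p / 16 * ∑ x, ∑ x', (if near x x' then (f x - f x') ^ 2 else 0) ≤ ∑ x, ∑ y, T x y * (f x - f y) ^ 2 := by
  constructor
  · have h1 := var_eq T hrow hcol f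
    have h2 : p ^ 2 * b / 8 * ∑ x, ∑ x', (if near x x' then (f x - f x') ^ 2 else 0) ≤
        ∑ x, ∑ x', KK T x x' * (f x - f x') ^ 2 := by
      rw [mul_sum]
      apply sum_le_sum
      intro x _
      rw [mul_sum]
      apply sum_le_sum
      intro x' _
      split_ifs with hn
      · apply mul_le_mul_of_nonneg_right _ (sq_nonneg _)
        obtain ⟨Y, hY1, hY2⟩ := hY x x' hn
        unfold KK
        calc p ^ 2 * b / 8 ≤ ∑ y ∈ Y, (p / 2) * (p / 2) := by
              rw [sum_const, nsmul_eq_mul]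
              nlinarith [sq_nonneg p]
          _ ≤ ∑ y ∈ Y, T x y * T x' y := by
              apply sum_le_sum
              intro y hy
              obtain ⟨h3, h4⟩ := hY2 y hy
              exact mul_le_mul h3 h4 (by linarith) (hnn _ _)
          _ ≤ ∑ y, T x y * T x' y := by
              apply sum_le_sum_of_subset_of_nonneg (subset_univ _)
              intro y _ _
              exact mul_nonneg (hnn _ _) (hnn _ _)
      · rw [mul_zero]
        apply mul_nonneg _ (sq_nonneg _)
        unfold KK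
        exact sum_nonneg fun y _ => mul_nonneg (hnn _ _) (hnn _ _)
    linarith
  · set D : V → ℝ := fun x => ∑ y, T x y * (f x - f y) ^ 2 with hD
    have hD0 : ∀ x, 0 ≤ D x := fun x => sum_nonneg fun y _ => mul_nonneg (hnn _ _) (sq_nonneg _)
    have h1 : ∀ x x', near x x' → (f x - f x') ^ 2 ≤ 8 / (p * b) * (D x + D x') := by
      intro x x' hn
      obtain ⟨Y, hY1, hY2⟩ := hY x x' hn
      have hc : (0 : ℝ) < Y.card := by linarith
      have h2 : (Y.card : ℝ) * (f x - f x') ^ 2 ≤ 4 / p * (D x + D x') := by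
        calc (Y.card : ℝ) * (f x - f x') ^ 2 = ∑ y ∈ Y, (f x - f x') ^ 2 := by rw [sum_const, nsmul_eq_mul]
          _ ≤ ∑ y ∈ Y, 4 / p * (T x y * (f x - f y) ^ 2 + T x' y * (f x' - f y) ^ 2) := by
              apply sum_le_sum
              intro y hy
              obtain ⟨h3, h4⟩ := hY2 y hy
              have h5 : (f x - f x') ^ 2 ≤ 2 * ((f x - f y) ^ 2 + (f x' - f y) ^ 2) := by
                nlinarith [sq_nonneg ((f x - f y) + (f x' - f y))]
              have h6 : p / 2 * (f x - f y) ^ 2 ≤ T x y * (f x - f y) ^ 2 := mul_le_mul_of_nonneg_right h3 (sq_nonneg _)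
              have h7 : p / 2 * (f x' - f y) ^ 2 ≤ T x' y * (f x' - f y) ^ 2 := mul_le_mul_of_nonneg_right h4 (sq_nonneg _)
              rw [div_mul_eq_mul_div, le_div_iff₀ hp]
              nlinarith
          _ ≤ 4 / p * (D x + D x') := by
              rw [← mul_sum, sum_add_distrib]
              apply mul_le_mul_of_nonneg_left _ (by positivity)
              apply add_le_add
              · apply sum_le_sum_of_subset_of_nonneg (subset_univ _)
                intro y _ _
                exact mul_nonneg (hnn _ _) (sq_nonneg _)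
              · apply sum_le_sum_of_subset_of_nonneg (subset_univ _)
                intro y _ _
                exact mul_nonneg (hnn _ _) (sq_nonneg _)
      have h3 : b / 2 * (f x - f x') ^ 2 ≤ 4 / p * (D x + D x') :=
        (mul_le_mul_of_nonneg_right hY1 (sq_nonneg _)).trans h2
      have h4 : 8 / (p * b) * (D x + D x') = (4 / p * (D x + D x')) / (b / 2) := by
        field_simp
        ring
      rw [h4, le_div_iff₀ (by positivity)]
      linarith
    have h2 : ∑ x, ∑ x', (if near x x' then (f x - f x') ^ 2 else 0) ≤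
        ∑ x, ∑ x', (if near x x' then 8 / (p * b) * (D x + D x') else 0) := by
      apply sum_le_sum
      intro x _
      apply sum_le_sum
      intro x' _
      split_ifs with hn
      · exact h1 x x' hn
      · exact le_refl _
    have h3 : ∑ x, ∑ x', (if near x x' then 8 / (p * b) * (D x + D x') else 0) =
        8 / (p * b) * (∑ x, ((univ.filter (fun x' => near x x')).card : ℝ) * D x +
          ∑ x', ((univ.filter (fun x => near x x')).card : ℝ) * D x') := by
      have e1 : ∀ x x', (if near x x' then 8 / (p * b) * (D x + D x') else 0) =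
          8 / (p * b) * (if near x x' then D x else 0) + 8 / (p * b) * (if near x x' then D x' else 0) := by
        intro x x'
        split_ifs <;> ring
      simp only [e1, sum_add_distrib, ← mul_sum]
      rw [mul_add]
      congr 1
      · congr 1
        apply sum_congr rfl
        intro x _
        rw [← sum_filter, sum_const, nsmul_eq_mul]
      · congr 1
        rw [sum_comm]
        apply sum_congr rfl
        intro x _
        rw [← sum_filter, sum_const, nsmul_eq_mul]
    have h4 : ∑ x, ((univ.filter (fun x' => near x x')).card : ℝ) * D x ≤ b * ∑ x, D x := by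
      rw [mul_sum]
      exact sum_le_sum fun x _ => mul_le_mul_of_nonneg_right (hn1 x) (hD0 x)
    have h5 : ∑ x', ((univ.filter (fun x => near x x')).card : ℝ) * D x' ≤ b * ∑ x, D x := by
      rw [mul_sum]
      exact sum_le_sum fun x _ => mul_le_mul_of_nonneg_right (hn2 x) (hD0 x)
    have h6 : ∑ x, ∑ x', (if near x x' then (f x - f x') ^ 2 else 0) ≤ 8 / (p * b) * (2 * (b * ∑ x, D x)) := by
      refine h2.trans ?_
      rw [h3]
      apply mul_le_mul_of_nonneg_left _ (by positivity)
      linarith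
    calc p / 16 * ∑ x, ∑ x', (if near x x' then (f x - f x') ^ 2 else 0) ≤ p / 16 * (8 / (p * b) * (2 * (b * ∑ x, D x))) :=
          mul_le_mul_of_nonneg_left h6 (by positivity)
      _ = ∑ x, D x := by field_simp; ring
      _ = _ := rfl

end

theorem nea : S_NEA := by
  intro d L _ hd hL σ hσ ω A Dm δ ε p n ℓ h0 h1 hp hε hP hDm hb f
  have hT := Pool.Agent.Q68.LC.DS_TT (ed ∘ σ) ω A h0 h1 n
  have hb0 : (0 : ℝ) < (bal (0 : Fin d → ZMod L) ℓ).card := by exact_mod_cast bal_card_pos ℓ
  set b : ℝ := ((bal (0 : Fin d → ZMod L) ℓ).card : ℝ) with hbd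
  set T := TT (ed ∘ σ) ω A δ n with hTd
  set P := PP (ed ∘ σ) δ n with hPd
  -- few bad points
  have hbad : ∀ x, x ∉ Dm → ((univ.filter (fun y => ¬ (P x y - T x y ≤ p / 2))).card : ℝ) * (p / 2) ≤ ε := by
    intro x hx
    have h2 := con1 _ (ed ∘ σ) ω A δ n x h0 h1
    have h3 := (hDm x hx).2
    calc ((univ.filter (fun y => ¬ (P x y - T x y ≤ p / 2))).card : ℝ) * (p / 2) =
          ∑ y ∈ univ.filter (fun y => ¬ (P x y - T x y ≤ p / 2)), p / 2 := by rw [sum_const, nsmul_eq_mul]
      _ ≤ ∑ y ∈ univ.filter (fun y => ¬ (P x y - T x y ≤ p / 2)), |P x y - T x y| := by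
          apply sum_le_sum
          intro y hy
          rw [mem_filter] at hy
          have h4 := not_le.1 hy.2
          exact h4.le.trans (le_abs_self _)
      _ ≤ ∑ y, |P x y - T x y| := sum_le_sum_of_subset_of_nonneg (subset_univ _) fun _ _ _ => abs_nonneg _
      _ ≤ _ := h2.trans h3
  have hmain := nea_gen T hT.nn hT.row hT.col f (fun x y => x ∉ Dm ∧ y ∉ Dm ∧ td x y ≤ ℓ) p b hp hb0 ?_ ?_ ?_
  · exact hmain
  · rintro x x' ⟨hx, hx', hxx⟩
    refine ⟨(bal x ℓ) \ (univ.filter (fun y => ¬ (P x y - T x y ≤ p / 2)) ∪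
      univ.filter (fun y => ¬ (P x' y - T x' y ≤ p / 2))), ?_, ?_⟩
    · have h2 := hbad x hx
      have h3 := hbad x' hx'
      have h4 : (bal x ℓ).card ≤ ((bal x ℓ) \ (univ.filter (fun y => ¬ (P x y - T x y ≤ p / 2)) ∪
          univ.filter (fun y => ¬ (P x' y - T x' y ≤ p / 2)))).card +
          ((univ.filter (fun y => ¬ (P x y - T x y ≤ p / 2))).card +
          (univ.filter (fun y => ¬ (P x' y - T x' y ≤ p / 2))).card) := by
        have h5 := card_le_card_sdiff_add_card (t := (univ.filter (fun y => ¬ (P x y - T x y ≤ p / 2)) ∪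
          univ.filter (fun y => ¬ (P x' y - T x' y ≤ p / 2)))) (s := bal x ℓ)
        have h6 := card_union_le (univ.filter (fun y => ¬ (P x y - T x y ≤ p / 2)))
          (univ.filter (fun y => ¬ (P x' y - T x' y ≤ p / 2)))
        omega
      rw [bal_card] at h4
      have h5 : b ≤ (((bal x ℓ) \ (univ.filter (fun y => ¬ (P x y - T x y ≤ p / 2)) ∪
          univ.filter (fun y => ¬ (P x' y - T x' y ≤ p / 2)))).card : ℝ) +
          (((univ.filter (fun y => ¬ (P x y - T x y ≤ p / 2))).card : ℝ) +
          ((univ.filter (fun y => ¬ (P x' y - T x' y ≤ p / 2))).card : ℝ)) := by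
        rw [hbd]; exact_mod_cast h4
      set c1 := ((univ.filter (fun y => ¬ (P x y - T x y ≤ p / 2))).card : ℝ) with hc1
      set c2 := ((univ.filter (fun y => ¬ (P x' y - T x' y ≤ p / 2))).card : ℝ) with hc2
      have h6 : (c1 + c2) * p ≤ 4 * ε := by linarith
      have h7 : (c1 + c2) * p ≤ (b / 2) * p := by linarith
      have h8 : c1 + c2 ≤ b / 2 := le_of_mul_le_mul_right h7 hp
      linarith
    · intro y hy
      rw [mem_sdiff, mem_union, mem_filter, mem_filter, mem_bal] at hy
      obtain ⟨hy1, hy2⟩ := hy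
      push Not at hy2
      have h2 := hy2.1 (mem_univ _)
      have h3 := hy2.2 (mem_univ _)
      have h4 := hP x y (by omega)
      have h5 := hP x' y (by
        have := td_tri x' x y
        rw [td_comm x' x] at this
        omega)
      constructor <;> linarith
  · intro x
    rw [hbd, ← bal_card x]
    exact_mod_cast card_le_card (fun y hy => by
      rw [mem_filter] at hy
      exact mem_bal.2 hy.2.2.2)
  · intro x
    rw [hbd, ← bal_card x]
    exact_mod_cast card_le_card (fun y hy => by
      rw [mem_filter] at hy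
      rw [mem_bal, td_comm]
      exact hy.2.2.2)

end Pool.Agent.Q151.LC
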