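import Pool.Agent.Q151.LC.Walk
import Pool.Agent.Q151.LC.Nea

/-! Project LC: job SMO, smoothing near the particles. -/

set_option autoImplicit false

namespace Pool.Agent.Q151.LC

open Finset Equiv Matrix Q292.LC

section gen
variable {V : Type} [Fintype V] [DecidableEq V]

lemma tch_shift_set (e : ℕ → V × V) (ω : ℕ → Bool) (A : Finset V) (i m : ℕ) :
    tch e ω A (i + m) ↔ tch (sh i e) (sh i ω) (A.image (gp e ω i)) m := by
  rw [tch_exists, tch_exists]
  constructor
  · rintro ⟨a, ha, h⟩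
    exact ⟨_, mem_image_of_mem _ ha, (tch_shift e ω a i m).1 h⟩
  · rintro ⟨b, hb, h⟩
    obtain ⟨a, ha, rfl⟩ := mem_image.1 hb
    exact ⟨a, ha, (tch_shift e ω a i m).2 h⟩

lemma kv_shift (e : ℕ → V × V) (ω : ℕ → Bool) (A B : Finset V) (δ : ℝ) (g : V → ℝ) (i m : ℕ) :
    kv e ω A δ B g (i + m) = kv (sh i e) (sh i ω) (A.image (gp e ω i)) δ B (kv e ω A δ B g i) m := by
  induction m with
  | zero => rfl
  | succ m ih =>
    show kv e ω A δ B g ((i + m) + 1) = _
    unfold kv
    rw [ih, Pool.Agent.Q68.LC.Mx_sh]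

lemma kv_nonneg (e : ℕ → V × V) (ω : ℕ → Bool) (A B : Finset V) (δ : ℝ) (h0 : 0 ≤ δ) (h1 : δ ≤ 1) (g : V → ℝ)
    (hg : ∀ y, 0 ≤ g y) (n : ℕ) (y : V) : 0 ≤ kv e ω A δ B g n y := by
  induction n generalizing y with
  | zero => exact hg y
  | succ n ih =>
    unfold kv
    split_ifs
    · rw [vecMul, dotProduct]
      exact sum_nonneg fun x _ => mul_nonneg (ih x) ((Pool.Agent.Q68.LC.DS_Mx e ω A h0 h1 n).nn _ _)
    · exact le_refl _

lemma kv_supp (e : ℕ → V × V) (ω : ℕ → Bool) (A B : Finset V) (δ : ℝ) (g : V → ℝ)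
    (hg : ∀ y, y ∉ B → g y = 0) (n : ℕ) (y : V) (hy : y ∉ B) : kv e ω A δ B g n y = 0 := by
  cases n with
  | zero => exact hg y hy
  | succ n =>
    unfold kv
    rw [if_neg hy]

lemma kv_le_TT (e : ℕ → V × V) (ω : ℕ → Bool) (A B : Finset V) (δ : ℝ) (h0 : 0 ≤ δ) (h1 : δ ≤ 1) (z : V)
    (n : ℕ) (y : V) : kv e ω A δ B (Pi.single z 1) n y ≤ TT e ω A δ n z y := by
  induction n generalizing y with
  | zero =>
    show (Pi.single z 1 : V → ℝ) y ≤ (1 : Matrix V V ℝ) z y
    rw [Matrix.one_apply, Pi.single_apply]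
    split_ifs with h1 h2 h2
    · exact le_refl _
    · exact absurd h1.symm h2
    · norm_num
    · exact le_refl _
  | succ n ih =>
    have hD := Pool.Agent.Q68.LC.DS_Mx e ω A h0 h1 n
    have hT := Pool.Agent.Q68.LC.DS_TT e ω A h0 h1 n
    show kv e ω A δ B (Pi.single z 1) (n + 1) y ≤ (TT e ω A δ n * Mx e ω A δ n) z y
    rw [Matrix.mul_apply]
    unfold kv
    split_ifs
    · rw [vecMul, dotProduct]
      exact sum_le_sum fun x _ => mul_le_mul_of_nonneg_right (ih x) (hD.nn _ _)
    · exact sum_nonneg fun x _ => mul_nonneg (hT.nn _ _) (hD.nn _ _)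

lemma sq_contr (M : Matrix V V ℝ) (hM : Pool.Agent.Q68.LC.DS M) (f : V → ℝ) :
    ∑ y, (vecMul f M y) ^ 2 ≤ ∑ y, (f y) ^ 2 := by
  have h := var_eq M hM.row hM.col f
  have h1 : 0 ≤ ∑ x, ∑ x', KK M x x' * (f x - f x') ^ 2 := by
    apply sum_nonneg; intro x _
    apply sum_nonneg; intro x' _
    apply mul_nonneg _ (sq_nonneg _)
    unfold KK
    exact sum_nonneg fun y _ => mul_nonneg (hM.nn _ _) (hM.nn _ _)
  linarith

lemma kv_contr (e : ℕ → V × V) (ω : ℕ → Bool) (A B : Finset V) (δ : ℝ) (h0 : 0 ≤ δ) (h1 : δ ≤ 1) (g : V → ℝ)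
    (i m : ℕ) : ∑ y, (kv e ω A δ B g (i + m) y) ^ 2 ≤ ∑ y, (kv e ω A δ B g i y) ^ 2 := by
  induction m with
  | zero => exact le_refl _
  | succ m ih =>
    refine le_trans ?_ ih
    refine le_trans ?_ (sq_contr _ (Pool.Agent.Q68.LC.DS_Mx e ω A h0 h1 (i + m)) _)
    apply sum_le_sum
    intro y _
    have e1 : kv e ω A δ B g (i + (m + 1)) y =
        if y ∈ B then (vecMul (kv e ω A δ B g (i + m)) (Mx e ω A δ (i + m))) y else 0 := rfl
    rw [e1]
    split_ifs
    · exact le_rfl
    · rw [zero_pow (by norm_num)]; exact sq_nonneg _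

end gen

/-- the scalar recursion -/
lemma rec_step (y y' c t : ℝ) (hy : 0 ≤ y) (hy' : 0 ≤ y') (hc : 0 ≤ c) (ht : 0 ≤ t) (h : y ^ 2 * t ≤ 1)
    (h1 : y' ≤ y - c * y ^ 3) : y' ^ 2 * (t + 2 * c) ≤ 1 := by
  set x := y ^ 2 with hx
  have hx0 : 0 ≤ x := sq_nonneg y
  have h2 : y' ≤ y * (1 - c * x) := by
    have e : y * (1 - c * x) = y - c * y ^ 3 := by rw [hx]; ring
    rw [e]; exact h1
  rcases hy.eq_or_lt with h3 | h3
  · have : y' = 0 := by
      have : y' ≤ 0 := by rw [← h3] at h2; simpa using h2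
      linarith
    rw [this]; norm_num
  · have h4 : 0 ≤ 1 - c * x := by
      by_contra h5
      push Not at h5
      have : y * (1 - c * x) < 0 := mul_neg_of_pos_of_neg h3 h5
      linarith
    have h5 : y' ^ 2 ≤ x * (1 - c * x) ^ 2 := by
      calc y' ^ 2 ≤ (y * (1 - c * x)) ^ 2 := pow_le_pow_left₀ hy' h2 2
        _ = x * (1 - c * x) ^ 2 := by rw [mul_pow]
    have hcx : 0 ≤ c * x := mul_nonneg hc hx0
    set a := c * x with ha
    calc y' ^ 2 * (t + 2 * c) ≤ x * (1 - a) ^ 2 * (t + 2 * c) := mul_le_mul_of_nonneg_right h5 (by positivity)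
      _ = (x * t) * (1 - a) ^ 2 + 2 * a * (1 - a) ^ 2 := by rw [ha]; ring
      _ ≤ 1 * (1 - a) ^ 2 + 2 * a * (1 - a) ^ 2 := by
          have := mul_le_mul_of_nonneg_right h (sq_nonneg (1 - a))
          linarith
      _ ≤ 1 := by nlinarith [sq_nonneg a, mul_nonneg hcx h4]

section torus
variable {d L : ℕ} [NeZero L]

lemma jumps_units (e : ℕ → (Fin d → ZMod L) × (Fin d → ZMod L)) (ω : ℕ → Bool) (a : Fin d → ZMod L) (N ρ u : ℕ)
    (h : ∀ j < u, jumps e ω (j * N) ((j + 1) * N) a ≤ ρ) : jumps e ω 0 (u * N) a ≤ ρ * u := by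
  induction u with
  | zero => simp [jumps]
  | succ u ih =>
    rw [jumps_add e ω a (i := 0) (j := u * N) (l := (u + 1) * N) (Nat.zero_le _) (Nat.mul_le_mul_right _ (by omega))]
    have h1 := ih (fun j hj => h j (by omega))
    have h2 := h u (by omega)
    calc _ ≤ ρ * u + ρ := Nat.add_le_add h1 h2
      _ = ρ * (u + 1) := by ring

/-- displacement before time `n` -/
lemma td_zero (σ : ℕ → (Fin d → ZMod L) × Fin d) (ω : ℕ → Bool) (n T ρ : ℕ) (a : Fin d → ZMod L) (hn : n ≤ T)
    (h : jumps (ed ∘ σ) ω 0 T a ≤ ρ) : td (gp (ed ∘ σ) ω n a) a ≤ ρ := by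
  have h1 := td_jumps σ ω 0 n a
  rw [Nat.zero_add] at h1
  have h2 : gp (ed ∘ σ) ω 0 a = a := rfl
  rw [h2] at h1
  exact h1.trans ((jumps_mono (ed ∘ σ) ω a (le_refl _) hn).trans h)

open Classical in
/-- number of jumps in a ball -/
lemma cnt_jump (σ : ℕ → (Fin d → ZMod L) × Fin d) (ω : ℕ → Bool) (A : Finset (Fin d → ZMod L)) (z : Fin d → ZMod L)
    (T R J lam : ℕ) (hJ : ∀ a ∈ A, jumps (ed ∘ σ) ω 0 T a ≤ J) (hlam : (A ∩ bal z (R + J + 4)).card ≤ lam) :
    ((range T).filter (fun k => ω k = true ∧ tch (ed ∘ σ) ω A k ∧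
      ((ed (σ k)).1 ∈ bal z (R + 1) ∨ (ed (σ k)).2 ∈ bal z (R + 1)))).card ≤ lam * J := by
  have hsub : (range T).filter (fun k => ω k = true ∧ tch (ed ∘ σ) ω A k ∧
      ((ed (σ k)).1 ∈ bal z (R + 1) ∨ (ed (σ k)).2 ∈ bal z (R + 1))) ⊆
      (A ∩ bal z (R + J + 4)).biUnion (fun a => (Finset.Ico 0 T).filter fun k => ω k = true ∧ tch (ed ∘ σ) ω {a} k) := by
    intro k hk
    rw [mem_filter, mem_range] at hk
    obtain ⟨hkT, ho, ht, hb⟩ := hk
    obtain ⟨a, ha, hta⟩ := tch_exists.1 ht
    rw [mem_biUnion]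
    refine ⟨a, ?_, ?_⟩
    · rw [mem_inter]
      refine ⟨ha, ?_⟩
      rw [mem_bal]
      have h1 := td_zero σ ω k T J a hkT.le (hJ a ha)
      have h2 := td_ed (σ k)
      have h3 := td_tri z (gp (ed ∘ σ) ω k a) a
      rw [mem_bal, mem_bal] at hb
      have hed : td z (gp (ed ∘ σ) ω k a) ≤ R + 2 := by
        rcases tch_single.1 hta with h | h
        · rw [h]
          simp only [Function.comp_apply]
          rcases hb with h4 | h4
          · omega
          · have := td_tri z (ed (σ k)).2 (ed (σ k)).1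
            rw [td_comm (ed (σ k)).2 (ed (σ k)).1] at this
            omega
        · rw [h]
          simp only [Function.comp_apply]
          rcases hb with h4 | h4
          · have := td_tri z (ed (σ k)).1 (ed (σ k)).2
            omega
          · omega
      omega
    · rw [mem_filter, mem_Ico]
      exact ⟨⟨Nat.zero_le _, hkT⟩, ho, hta⟩
  refine (card_le_card hsub).trans ((card_biUnion_le_card_mul _ _ J ?_).trans (Nat.mul_le_mul_right _ hlam))
  intro a ha
  exact hJ a (mem_inter.1 ha).1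

/-- a sweep with a jump near the ball -/
def B1 (σ : ℕ → (Fin d → ZMod L) × Fin d) (ω : ℕ → Bool) (A : Finset (Fin d → ZMod L)) (z : Fin d → ZMod L)
    (R s : ℕ) : Prop := ∃ k < ms d L, ω (s * ms d L + k) = true ∧
    tch (ed ∘ σ) ω A (s * ms d L + k) ∧ ((ed (σ (s * ms d L + k))).1 ∈ bal z (R + 1) ∨
      (ed (σ (s * ms d L + k))).2 ∈ bal z (R + 1))

/-- a sweep at whose start two particles near the ball are near to each other -/
def B2 (σ : ℕ → (Fin d → ZMod L) × Fin d) (ω : ℕ → Bool) (A : Finset (Fin d → ZMod L)) (z : Fin d → ZMod L)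
    (R s : ℕ) : Prop := ∃ h ∈ (A.image (gp (ed ∘ σ) ω (s * ms d L))) ∩ bal z (R + 3),
    ∃ h' ∈ (A.image (gp (ed ∘ σ) ω (s * ms d L))) ∩ bal z (R + 3), h ≠ h' ∧ td h h' ≤ 3

theorem smo (hK : S_KIL) (hS : S_SWD) (hN : S_NA1) : S_SMO := by
  classical
  intro d hd
  obtain ⟨CK, hCK1, hK⟩ := hK d (by omega)
  refine ⟨⌈CK⌉₊ + 1 + 16 * d, by omega, ?_⟩
  intro L _ hL σ hσ ω A δ q u R lam ρ κ₀ z h0 hC hq1 hq2 hzA hu hlam hJ hpair hk1 hk2 hR hRL
  set N := q * ms d L with hNd
  set B := bal z R with hB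
  set e := ed ∘ σ with he
  have hCKr : CK ≤ ⌈CK⌉₊ := Nat.le_ceil _
  have hceil0 : (0 : ℝ) ≤ ⌈CK⌉₊ := Nat.cast_nonneg _
  have hd0 : (0 : ℝ) ≤ d := Nat.cast_nonneg _
  have hCr : (((⌈CK⌉₊ + 1 + 16 * d : ℕ) : ℝ)) = ⌈CK⌉₊ + 1 + 16 * d := by push_cast; ring
  rw [hCr] at hC
  have hδ1 : δ ≤ 1 := by nlinarith
  have hCKδ : CK * δ ≤ 1 := by nlinarith
  have h16 : 16 * d * δ ≤ 1 := by nlinarith
  have hms : 0 < ms d L := by
    unfold ms
    have : 0 < L := by omega
    positivity
  have hJall : ∀ a ∈ A, jumps e ω 0 (u * N) a ≤ ρ * u := fun a ha =>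
    jumps_units e ω a N ρ u (fun j hj => hJ j hj a ha)
  -- numbers of bad steps
  have hcnt := cnt_jump σ ω A z (u * N) R (ρ * u) lam hJall (by
    have e1 : R + ρ * u + 4 = R + ρ * u + 4 := rfl
    exact hlam)
  set g : ℕ → (Fin d → ZMod L) → ℝ := fun n => kv e ω A δ B (Pi.single z 1) n with hg
  have hzB : z ∈ B := mem_bal.2 (by rw [td_self]; exact Nat.zero_le _)
  have hs0 : ∀ y, 0 ≤ (Pi.single z 1 : (Fin d → ZMod L) → ℝ) y := by
    intro y; rw [Pi.single_apply]; split_ifs <;> norm_num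
  have hsB : ∀ y, y ∉ B → (Pi.single z 1 : (Fin d → ZMod L) → ℝ) y = 0 := by
    intro y hy
    rw [Pi.single_apply, if_neg]
    intro h
    rw [h] at hy
    exact hy hzB
  have hg0 : ∀ n y, 0 ≤ g n y := fun n y => kv_nonneg e ω A B δ h0.le hδ1 _ hs0 n y
  have hgB : ∀ n y, y ∉ B → g n y = 0 := fun n y hy => kv_supp e ω A B δ _ hsB n y hy
  have hgT : ∀ n y, g n y ≤ TT e ω A δ n z y := fun n y => kv_le_TT e ω A B δ h0.le hδ1 z n y
  have hg1 : ∀ n, ∑ y, g n y ≤ 1 := fun n => by
    rw [← (Pool.Agent.Q68.LC.DS_TT e ω A h0.le hδ1 n).row z]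
    exact sum_le_sum fun y _ => hgT n y
  have hgA : ∀ n, ∀ y ∈ A.image (gp e ω n), g n y = 0 := by
    intro n y hy
    have h1 := (Pool.Agent.Q68.LC.bas2 _ e ω A δ h0.le hδ1).2.2.2.2.1 n z hzA y hy
    have h2 := hgT n y
    rw [h1] at h2
    exact le_antisymm h2 (hg0 n y)
  -- nice sweeps
  set bad1 : Finset ℕ := (range (u * q)).filter (fun s => B1 σ ω A z R s) with hbad1
  set bad2 : Finset ℕ := (range (u * q)).filter (fun s => B2 σ ω A z R s) with hbad2
  have huN : u * N = (u * q) * ms d L := by rw [hNd]; ring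
  have hb1 : bad1.card ≤ lam * (ρ * u) := by
    refine le_trans ?_ hcnt
    have hsub : bad1 ⊆ ((range (u * N)).filter (fun k => ω k = true ∧ tch (ed ∘ σ) ω A k ∧
      ((ed (σ k)).1 ∈ bal z (R + 1) ∨ (ed (σ k)).2 ∈ bal z (R + 1)))).image (fun k => k / ms d L) := by
      intro s hs
      rw [hbad1, mem_filter, mem_range] at hs
      obtain ⟨hs1, k, hk, h1⟩ := hs
      rw [mem_image]
      refine ⟨s * ms d L + k, ?_, ?_⟩
      · rw [mem_filter, mem_range]
        refine ⟨?_, h1⟩
        rw [huN]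
        calc s * ms d L + k < s * ms d L + ms d L := by omega
          _ = (s + 1) * ms d L := by ring
          _ ≤ (u * q) * ms d L := Nat.mul_le_mul_right _ (by omega)
      · rw [Nat.add_comm, Nat.add_mul_div_right _ _ hms, Nat.div_eq_of_lt hk, Nat.zero_add]
    exact (card_le_card hsub).trans card_image_le
  have hb2 : bad2.card ≤ lam * lam * (κ₀ * q) := by
    set A' := A ∩ bal z (R + ρ * u + 4) with hA'
    have hsub : bad2 ⊆ ((A' ×ˢ A').filter (fun x => x.1 ≠ x.2)).biUnion (fun x => (range (u * q)).filter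
        (fun s => td (gp e ω (s * ms d L) x.1) (gp e ω (s * ms d L) x.2) ≤ 3)) := by
      intro s hs
      rw [hbad2, mem_filter, mem_range] at hs
      obtain ⟨hs1, h, hh, h', hh', hne, htd⟩ := hs
      rw [mem_inter, mem_image, mem_bal] at hh hh'
      obtain ⟨⟨a, ha, rfl⟩, hha⟩ := hh
      obtain ⟨⟨b, hb, rfl⟩, hhb⟩ := hh'
      have hsle : s * ms d L ≤ u * N := by rw [huN]; exact Nat.mul_le_mul_right _ hs1.le
      have hin : ∀ c ∈ A, td z (gp e ω (s * ms d L) c) ≤ R + 3 → c ∈ A' := by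
        intro c hc h1
        rw [hA', mem_inter, mem_bal]
        refine ⟨hc, ?_⟩
        have h2 := td_zero σ ω (s * ms d L) (u * N) (ρ * u) c hsle (hJall c hc)
        rw [← he] at h2
        have h3 := td_tri z (gp e ω (s * ms d L) c) c
        omega
      rw [mem_biUnion]
      refine ⟨(a, b), ?_, ?_⟩
      · rw [mem_filter, mem_product]
        refine ⟨⟨hin a ha hha, hin b hb hhb⟩, ?_⟩
        intro hab
        simp only at hab
        exact hne (by rw [hab])
      · rw [mem_filter, mem_range]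
        exact ⟨hs1, htd⟩
    refine (card_le_card hsub).trans ((card_biUnion_le_card_mul _ _ (κ₀ * q) ?_).trans ?_)
    · intro x hx
      rw [mem_filter, mem_product, hA', mem_inter, mem_inter] at hx
      exact hpair x.1 hx.1.1.1 x.2 hx.1.2.1 hx.2
    · apply Nat.mul_le_mul_right
      refine (card_filter_le _ _).trans ?_
      rw [card_product]
      exact Nat.mul_le_mul hlam hlam
  -- the recursion
  set Y : ℕ → ℝ := fun s => ∑ y, (g (s * ms d L) y) ^ 2 with hY
  have hY0 : ∀ s, 0 ≤ Y s := fun s => sum_nonneg fun y _ => sq_nonneg _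
  set nice : ℕ → ℕ := fun s => ((range s).filter (fun t => t ∉ bad1 ∧ t ∉ bad2)).card with hnice
  have hrec : ∀ s, s ≤ u * q → Y s ^ 2 * (1 + δ / 100 * nice s) ≤ 1 := by
    intro s
    induction s with
    | zero =>
      intro _
      have h1 : Y 0 = 1 := by
        rw [hY]
        simp only [Nat.zero_mul]
        rw [hg]
        show ∑ y, ((Pi.single z 1 : (Fin d → ZMod L) → ℝ) y) ^ 2 = 1
        rw [sum_eq_single z]
        · rw [Pi.single_eq_same]; norm_num
        · intro y _ hy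
          rw [Pi.single_eq_of_ne hy]; norm_num
        · intro h; exact absurd (mem_univ _) h
      rw [h1, hnice]
      simp
    | succ s ih =>
      intro hs
      have ih' := ih (by omega)
      have hmono : Y (s + 1) ≤ Y s := by
        rw [hY]
        simp only
        rw [Nat.succ_mul]
        exact kv_contr e ω A B δ h0.le hδ1 _ _ _
      by_cases hn : s ∉ bad1 ∧ s ∉ bad2
      · have hcard : nice (s + 1) = nice s + 1 := by
          rw [hnice]
          simp only
          rw [range_add_one, filter_insert, if_pos hn, card_insert_of_notMem]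
          rw [mem_filter, mem_range]; omega
        have hsr : s ∈ range (u * q) := mem_range.2 (by omega)
        -- shifted circuit
        set i := s * ms d L with hi
        have hsh : sh i e = e := by rw [hi, he]; exact sh_per hσ _
        set A' := A.image (gp e ω i) with hA'
        have h1 := hS d L (by omega) hL σ hσ (sh i ω) A' δ z R (g i) h0 h16 (hg0 i) (hgB i) (hgA i) (by
          intro k hk ho ht
          have ht' : tch e ω A (i + k) := by
            rw [tch_shift_set, hsh]; exact ht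
          have ho' : ω (i + k) = true := by
            unfold sh at ho
            rwa [Nat.add_comm] at ho
          have hσk : σ (i + k) = σ k := by
            rw [Nat.add_comm, hi]; exact sig_per hσ _ _
          have h2 := hn.1
          rw [hbad1, mem_filter] at h2
          by_contra hcon
          apply h2
          refine ⟨hsr, k, hk, ho', ht', ?_⟩
          rw [hσk]
          tauto)
        have h2 := hN d L hd z R hRL A' (g i) (hg0 i) (hgB i) (hgA i) (by
          intro h hh h' hh' hne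
          have h3 := hn.2
          rw [hbad2, mem_filter] at h3
          by_contra hcon
          apply h3
          exact ⟨hsr, h, hh, h', hh', hne, by omega⟩)
        set E : ℝ := ∑ p : (Fin d → ZMod L) × Fin d, (if (ed p).1 ∉ A' ∧ (ed p).2 ∉ A' then
          (g i (ed p).1 - g i (ed p).2) ^ 2 else 0) with hE
        have hE0 : 0 ≤ E := by
          rw [hE]
          apply sum_nonneg
          intro p _
          split_ifs
          · exact sq_nonneg _
          · exact le_refl _
        have hYs : Y (s + 1) = ∑ y, (kv (ed ∘ σ) (sh i ω) A' δ (bal z R) (g i) (ms d L) y) ^ 2 := by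
          rw [hY]
          simp only
          have e1 : (s + 1) * ms d L = i + ms d L := by rw [hi]; ring
          rw [e1]
          apply sum_congr rfl
          intro y _
          have e2 := kv_shift e ω A B δ (Pi.single z 1) i (ms d L)
          rw [hsh] at e2
          show (kv e ω A δ B (Pi.single z 1) (i + ms d L) y) ^ 2 = _
          rw [e2]
        have hYi : Y s = ∑ y, (g i y) ^ 2 := rfl
        rw [← hYs, ← hYi] at h1
        rw [← hYi] at h2
        have hsum4 : (∑ y, g i y) ^ 4 ≤ 1 := pow_le_one₀ (sum_nonneg fun y _ => hg0 i y) (hg1 i)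
        have h3 : Y s ^ 3 ≤ 100 * E := by
          refine h2.trans ?_
          calc 100 * (∑ y, g i y) ^ 4 * E ≤ 100 * 1 * E := by
                apply mul_le_mul_of_nonneg_right _ hE0
                linarith
            _ = 100 * E := by ring
        have h4 : Y (s + 1) ≤ Y s - δ / 200 * Y s ^ 3 := by
          have := mul_le_mul_of_nonneg_left h3 (by positivity : 0 ≤ δ / 200)
          linarith
        have h5 := rec_step (Y s) (Y (s + 1)) (δ / 200) (1 + δ / 100 * nice s) (hY0 _) (hY0 _) (by positivity)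
          (by positivity) ih' h4
        rw [hcard]
        refine le_trans (le_of_eq ?_) h5
        push_cast
        ring
      · have hcard : nice (s + 1) = nice s := by
          rw [hnice]
          simp only
          rw [range_add_one, filter_insert, if_neg hn]
        rw [hcard]
        refine le_trans ?_ ih'
        apply mul_le_mul_of_nonneg_right _ (by positivity)
        exact pow_le_pow_left₀ (hY0 _) hmono 2
  have hfin := hrec (u * q) (le_refl _)
  have hnc : u * q ≤ 2 * nice (u * q) := by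
    have h1 : (range (u * q)).card ≤ nice (u * q) + (bad1.card + bad2.card) := by
      have h2 : range (u * q) ⊆ ((range (u * q)).filter (fun t => t ∉ bad1 ∧ t ∉ bad2)) ∪ (bad1 ∪ bad2) := by
        intro t ht
        rw [mem_union, mem_union, mem_filter]
        tauto
      refine (card_le_card h2).trans ((card_union_le _ _).trans ?_)
      exact Nat.add_le_add_left (card_union_le _ _) _
    rw [card_range] at h1
    have h3 : 4 * (lam * (ρ * u)) ≤ q * u := by
      calc 4 * (lam * (ρ * u)) = (4 * lam * ρ) * u := by ring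
        _ ≤ q * u := Nat.mul_le_mul_right _ hk2
    have h4 : 4 * (lam * lam * (κ₀ * q)) ≤ u * q := by
      calc 4 * (lam * lam * (κ₀ * q)) = (4 * lam ^ 2 * κ₀) * q := by ring
        _ ≤ u * q := Nat.mul_le_mul_right _ hk1
    rw [Nat.mul_comm q u] at h3
    omega
  refine ⟨g (u * N), ?_, ?_, ?_⟩
  · intro y
    refine ⟨hg0 _ _, hgT _ _, ?_⟩
    intro h
    by_contra h1
    apply h
    apply hgB
    rw [hB, mem_bal]; exact h1
  · have h1 : ∑ y, (g (u * N) y) ^ 2 = Y (u * q) := by
      rw [hY, huN]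
    rw [h1]
    have hur : (1 : ℝ) ≤ u := by exact_mod_cast hu
    have h2 : (u : ℝ) ≤ 2 * (δ * nice (u * q)) := by
      have h3 : ((u * q : ℕ) : ℝ) ≤ ((2 * nice (u * q) : ℕ) : ℝ) := by exact_mod_cast hnc
      push_cast at h3
      have h4 : (u : ℝ) * 1 ≤ u * (δ * q) := mul_le_mul_of_nonneg_left hq1 (by linarith)
      have h5 : δ * (u * q) ≤ δ * (2 * nice (u * q)) := mul_le_mul_of_nonneg_left h3 h0.le
      linarith
    have h6 : Y (u * q) ^ 2 * (u / 200) ≤ 1 := by
      refine le_trans ?_ hfin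
      apply mul_le_mul_of_nonneg_left _ (sq_nonneg _)
      linarith
    have hsu : 0 < √(u : ℝ) := Real.sqrt_pos.2 (by linarith)
    rw [le_div_iff₀ hsu]
    have h7 : (Y (u * q) * √(u : ℝ)) ^ 2 ≤ 20 ^ 2 := by
      rw [mul_pow, Real.sq_sqrt (by linarith)]
      linarith
    exact (abs_le_of_sq_le_sq' h7 (by norm_num)).2
  · have h1 := (hK L hL σ hσ ω A δ q u R z h0 hCKδ hq2).2
    refine h1.trans ?_
    apply Real.exp_le_exp.2
    set n1 := ((Finset.range (u * (q * ms d L))).filter fun k => ω k = true ∧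
      tch (ed ∘ σ) ω A k ∧ ((ed (σ k)).1 ∈ bal z R ∨ (ed (σ k)).2 ∈ bal z R)).card with hn1
    have h2 : n1 ≤ lam * (ρ * u) := by
      refine le_trans ?_ hcnt
      rw [hn1]
      apply card_le_card
      intro k hk
      rw [mem_filter] at hk ⊢
      refine ⟨hk.1, hk.2.1, hk.2.2.1, ?_⟩
      rcases hk.2.2.2 with h3 | h3
      · left; rw [mem_bal] at h3 ⊢; omega
      · right; rw [mem_bal] at h3 ⊢; omega
    have h3 : (n1 : ℝ) ≤ lam * (ρ * u) := by exact_mod_cast h2
    have h4 : (((⌈CK⌉₊ + 1 + 16 * d : ℕ) : ℝ)) * (lam * ρ + 1) * u ≤ R := by exact_mod_cast hR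
    rw [hCr] at h4
    have hur : (1 : ℝ) ≤ u := by exact_mod_cast hu
    have h5 : 0 ≤ (lam : ℝ) * (ρ * u) := by positivity
    have h6 : CK * (u + n1) ≤ ⌈CK⌉₊ * (u + lam * (ρ * u)) := by
      apply mul_le_mul hCKr (by linarith) (by positivity) hceil0
    nlinarith [mul_nonneg hd0 (by positivity : 0 ≤ ((lam : ℝ) * ρ + 1) * u)]

end torus

end Pool.Agent.Q151.LC
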