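import Pool.Agent.Q151.LC.Tor
import Pool.Agent.Q68.LC.Bas1
import Pool.Agent.Q68.LC.Bas2

/-! Project LC: positions of the particles, shifts by sweeps. -/

set_option autoImplicit false

namespace Pool.Agent.Q151.LC

open Finset Equiv Matrix Q292.LC

section gen
variable {V : Type} [DecidableEq V]

lemma tch_single {e : ℕ → V × V} {ω : ℕ → Bool} {a : V} {k : ℕ} :
    tch e ω {a} k ↔ gp e ω k a = (e k).1 ∨ gp e ω k a = (e k).2 := by
  unfold tch
  simp

lemma tch_exists {e : ℕ → V × V} {ω : ℕ → Bool} {A : Finset V} {k : ℕ} :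
    tch e ω A k ↔ ∃ a ∈ A, tch e ω {a} k := by
  unfold tch
  simp

lemma tch_shift (e : ℕ → V × V) (ω : ℕ → Bool) (a : V) (i m : ℕ) :
    tch e ω {a} (i + m) ↔ tch (sh i e) (sh i ω) {gp e ω i a} m := by
  rw [tch_single, tch_single, Pool.Agent.Q68.LC.gp_add]
  unfold sh
  rw [Perm.mul_apply, Nat.add_comm m i]

lemma jumps_shift (e : ℕ → V × V) (ω : ℕ → Bool) (a : V) (i m : ℕ) :
    jumps e ω i (i + m) a = jumps (sh i e) (sh i ω) 0 m (gp e ω i a) := by
  unfold jumps
  symm
  apply card_nbij' (fun k => i + k) (fun k => k - i)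
  · intro k hk
    simp only [mem_coe, mem_filter, mem_Ico] at hk ⊢
    refine ⟨by omega, ?_, (tch_shift e ω a i k).2 hk.2.2⟩
    have := hk.2.1
    unfold sh at this
    rwa [Nat.add_comm] at this
  · intro k hk
    simp only [mem_coe, mem_filter, mem_Ico] at hk ⊢
    have e1 : i + (k - i) = k := by omega
    refine ⟨by omega, ?_, ?_⟩
    · unfold sh
      rw [Nat.sub_add_cancel (by omega)]
      exact hk.2.1
    · rw [← tch_shift, e1]; exact hk.2.2
  · intro k _
    simp only []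
    omega
  · intro k hk
    rw [mem_coe, mem_filter, mem_Ico] at hk
    simp only []
    omega

lemma jumps_mono (e : ℕ → V × V) (ω : ℕ → Bool) (a : V) {i j i' j' : ℕ} (h1 : i' ≤ i) (h2 : j ≤ j') :
    jumps e ω i j a ≤ jumps e ω i' j' a := by
  unfold jumps
  apply card_le_card
  apply filter_subset_filter
  exact Finset.Ico_subset_Ico h1 h2

lemma jumps_add (e : ℕ → V × V) (ω : ℕ → Bool) (a : V) {i j l : ℕ} (h1 : i ≤ j) (h2 : j ≤ l) :
    jumps e ω i l a = jumps e ω i j a + jumps e ω j l a := by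
  unfold jumps
  rw [← card_union_of_disjoint]
  · rw [← filter_union, Finset.Ico_union_Ico_eq_Ico h1 h2]
  · apply disjoint_filter_filter
    exact Finset.Ico_disjoint_Ico_consecutive i j l

end gen

section torus
variable {d L : ℕ} [NeZero L]

lemma td_ed (p : (Fin d → ZMod L) × Fin d) : td (ed p).1 (ed p).2 ≤ 1 := by
  unfold td ed
  have h : ∀ i ∈ (univ : Finset (Fin d)), i ≠ p.2 →
      ((p.1 i - Function.update p.1 p.2 (p.1 p.2 + 1) i : ZMod L).valMinAbs).natAbs = 0 := by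
    intro i _ hi
    rw [Function.update_of_ne hi, sub_self, ZMod.valMinAbs_zero]; rfl
  rw [sum_eq_single p.2 h (fun h => absurd (mem_univ _) h)]
  rw [Function.update_self]
  have h1 : p.1 p.2 - (p.1 p.2 + 1) = -(1 : ZMod L) := by ring
  rw [h1, ZMod.natAbs_valMinAbs_neg, ZMod.valMinAbs_natAbs_eq_min]
  refine (min_le_left _ _).trans ?_
  rw [ZMod.val_one_eq_one_mod]
  exact Nat.mod_le _ _

lemma sig_per {σ : ℕ → (Fin d → ZMod L) × Fin d} (hσ : Per σ) (N k : ℕ) : σ (k + N * ms d L) = σ k := by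
  induction N with
  | zero => simp
  | succ N ih =>
    rw [Nat.succ_mul, ← Nat.add_assoc, hσ.1, ih]

lemma sh_per {σ : ℕ → (Fin d → ZMod L) × Fin d} (hσ : Per σ) (N : ℕ) : sh (N * ms d L) (ed ∘ σ) = ed ∘ σ := by
  funext k
  unfold sh
  simp only [Function.comp_apply]
  rw [sig_per hσ]

lemma td_step (σ : ℕ → (Fin d → ZMod L) × Fin d) (ω : ℕ → Bool) (k : ℕ) (a : Fin d → ZMod L) :
    td (gp (ed ∘ σ) ω (k + 1) a) (gp (ed ∘ σ) ω k a) ≤ if ω k = true ∧ tch (ed ∘ σ) ω {a} k then 1 else 0 := by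
  rw [gp]
  by_cases ho : ω k = true
  · rw [if_pos ho, Perm.mul_apply]
    by_cases ht : tch (ed ∘ σ) ω {a} k
    · rw [if_pos ⟨ho, ht⟩]
      rw [tch_single] at ht
      rcases ht with h | h
      · rw [h, swap_apply_left, td_comm]; exact td_ed _
      · rw [h, swap_apply_right]; exact td_ed _
    · rw [if_neg (by tauto)]
      rw [tch_single] at ht
      push Not at ht
      rw [swap_apply_of_ne_of_ne ht.1 ht.2, td_self]
  · rw [if_neg ho, td_self]
    exact Nat.zero_le _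

lemma td_jumps (σ : ℕ → (Fin d → ZMod L) × Fin d) (ω : ℕ → Bool) (i m : ℕ) (a : Fin d → ZMod L) :
    td (gp (ed ∘ σ) ω (i + m) a) (gp (ed ∘ σ) ω i a) ≤ jumps (ed ∘ σ) ω i (i + m) a := by
  induction m with
  | zero => rw [Nat.add_zero, td_self]; exact Nat.zero_le _
  | succ m ih =>
    rw [jumps_add (ed ∘ σ) ω a (i := i) (j := i + m) (l := i + (m + 1)) (by omega) (by omega)]
    have h1 := td_step σ ω (i + m) a
    have h2 := td_tri (gp (ed ∘ σ) ω (i + (m + 1)) a) (gp (ed ∘ σ) ω (i + m) a) (gp (ed ∘ σ) ω i a)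
    have h3 : (if ω (i + m) = true ∧ tch (ed ∘ σ) ω {a} (i + m) then 1 else 0) ≤
        jumps (ed ∘ σ) ω (i + m) (i + (m + 1)) a := by
      split_ifs with h
      · unfold jumps
        rw [Nat.one_le_iff_ne_zero, Ne, card_eq_zero, ← Ne, ← nonempty_iff_ne_empty]
        exact ⟨i + m, mem_filter.2 ⟨mem_Ico.2 ⟨le_refl _, by omega⟩, h⟩⟩
      · exact Nat.zero_le _
    have e1 : i + m + 1 = i + (m + 1) := by omega
    rw [e1] at h1
    omega

end torus

end Pool.Agent.Q151.LC
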