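import Pool.Agent.Q292.LC.Stm3
import Pool.Agent.Q68.LC.Bas2

/-! Project LC: job CON1, Duhamel. -/

set_option autoImplicit false

namespace Pool.Agent.Q151.LC

open Finset Equiv Matrix Q292.LC

section
variable {V : Type} [Fintype V] [DecidableEq V]

lemma not_tch_empty (e : ℕ → V × V) (ω : ℕ → Bool) (k : ℕ) : ¬ tch e ω (∅ : Finset V) k := by
  rintro ⟨a, ha, _⟩
  exact absurd ha (Finset.notMem_empty a)

lemma PP_succ (e : ℕ → V × V) (δ : ℝ) (k : ℕ) : PP e δ (k + 1) = PP e δ k * fr δ (e k) := by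
  unfold PP
  rw [TT]
  unfold Mx
  rw [if_neg (not_tch_empty e _ k)]

lemma row_pm (v : V → ℝ) (a b : V) (y : V) : ∑ x, v x * pm (swap a b) x y = v (swap a b y) := by
  unfold pm
  simp only [Matrix.of_apply, mul_ite, mul_one, mul_zero]
  have : ∀ x, (swap a b x = y) ↔ (x = swap a b y) := by
    intro x
    constructor
    · intro h; rw [← h, swap_apply_self]
    · intro h; rw [h, swap_apply_self]
  simp only [this]
  rw [Finset.sum_ite_eq' univ (swap a b y) v, if_pos (mem_univ _)]

lemma row_one (v : V → ℝ) (y : V) : ∑ x, v x * (1 : Matrix V V ℝ) x y = v y := by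
  simp only [Matrix.one_apply, mul_ite, mul_one, mul_zero]
  rw [Finset.sum_ite_eq' univ y v, if_pos (mem_univ _)]

lemma swap_l1 (v : V → ℝ) (hv : ∀ y, 0 ≤ v y) (a b : V) :
    ∑ y, |v (swap a b y) - v y| ≤ 2 * (v a + v b) := by
  have h : ∀ y ∈ (univ : Finset V), |v (swap a b y) - v y| ≤ (if y = a then v a + v b else 0) + (if y = b then v a + v b else 0) := by
    intro y _
    have ha := hv a
    have hb := hv b
    by_cases h1 : y = a
    · rw [h1, if_pos rfl, swap_apply_left]
      have h2 : |v b - v a| ≤ v a + v b := by rw [abs_le]; constructor <;> linarith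
      split_ifs <;> linarith
    · by_cases h2 : y = b
      · rw [h2, if_pos rfl, swap_apply_right]
        have h3 : |v a - v b| ≤ v a + v b := by rw [abs_le]; constructor <;> linarith
        split_ifs <;> linarith
      · rw [swap_apply_of_ne_of_ne h1 h2, if_neg h1, if_neg h2]
        simp
  refine (sum_le_sum h).trans (le_of_eq ?_)
  rw [sum_add_distrib, Finset.sum_ite_eq' univ a (fun _ => v a + v b), Finset.sum_ite_eq' univ b (fun _ => v a + v b),
    if_pos (mem_univ _), if_pos (mem_univ _)]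
  ring

lemma row_fr (v : V → ℝ) (δ : ℝ) (p : V × V) (y : V) :
    ∑ x, v x * fr δ p x y = (1 - δ) * v y + δ * v (swap p.1 p.2 y) := by
  unfold fr
  have h : ∀ x, v x * ((1 - δ) • (1 : Matrix V V ℝ) + δ • pm (swap p.1 p.2)) x y =
      (1 - δ) * (v x * (1 : Matrix V V ℝ) x y) + δ * (v x * pm (swap p.1 p.2) x y) := by
    intro x
    rw [Matrix.add_apply, Matrix.smul_apply, Matrix.smul_apply, smul_eq_mul, smul_eq_mul]
    ring
  simp only [h]
  rw [sum_add_distrib, ← mul_sum, ← mul_sum, row_one, row_pm]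

lemma step_l1 (e : ℕ → V × V) (ω : ℕ → Bool) (A : Finset V) (δ : ℝ) (k : ℕ) (h0 : 0 ≤ δ) (h1 : δ ≤ 1) (v : V → ℝ)
    (hv : ∀ y, 0 ≤ v y) :
    ∑ y, |∑ x, v x * fr δ (e k) x y - ∑ x, v x * Mx e ω A δ k x y| ≤
      if tch e ω A k then 2 * ((if ω k then 1 else δ) * (v (e k).1 + v (e k).2)) else 0 := by
  have hs := swap_l1 v hv (e k).1 (e k).2
  unfold Mx
  by_cases ht : tch e ω A k
  · rw [if_pos ht, if_pos ht]
    by_cases ho : ω k = true
    · rw [if_pos ho, if_pos ho]
      have h : ∀ y ∈ (univ : Finset V), |∑ x, v x * fr δ (e k) x y - ∑ x, v x * pm (swap (e k).1 (e k).2) x y| ≤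
          |v (swap (e k).1 (e k).2 y) - v y| := by
        intro y _
        rw [row_fr, row_pm]
        have e1 : (1 - δ) * v y + δ * v (swap (e k).1 (e k).2 y) - v (swap (e k).1 (e k).2 y) =
            -((1 - δ) * (v (swap (e k).1 (e k).2 y) - v y)) := by ring
        rw [e1, abs_neg, abs_mul, abs_of_nonneg (by linarith : 0 ≤ 1 - δ)]
        have := abs_nonneg (v (swap (e k).1 (e k).2 y) - v y)
        nlinarith
      refine (sum_le_sum h).trans ?_
      linarith
    · rw [if_neg ho, if_neg ho]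
      have h : ∀ y ∈ (univ : Finset V), |∑ x, v x * fr δ (e k) x y - ∑ x, v x * (1 : Matrix V V ℝ) x y| ≤
          δ * |v (swap (e k).1 (e k).2 y) - v y| := by
        intro y _
        rw [row_fr, row_one]
        have e1 : (1 - δ) * v y + δ * v (swap (e k).1 (e k).2 y) - v y =
            δ * (v (swap (e k).1 (e k).2 y) - v y) := by ring
        rw [e1, abs_mul, abs_of_nonneg h0]
      refine (sum_le_sum h).trans ?_
      rw [← mul_sum]
      nlinarith
  · rw [if_neg ht, if_neg ht]
    simp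

lemma l1_stoch (v : V → ℝ) (M : Matrix V V ℝ) (h0 : ∀ x y, 0 ≤ M x y) (h1 : ∀ x, ∑ y, M x y = 1) :
    ∑ y, |∑ x, v x * M x y| ≤ ∑ x, |v x| := by
  have h : ∀ y ∈ (univ : Finset V), |∑ x, v x * M x y| ≤ ∑ x, |v x| * M x y := by
    intro y _
    refine (abs_sum_le_sum_abs _ _).trans ?_
    apply sum_le_sum
    intro x _
    rw [abs_mul, abs_of_nonneg (h0 x y)]
  refine (sum_le_sum h).trans (le_of_eq ?_)
  rw [sum_comm]
  apply sum_congr rfl
  intro x _
  rw [← mul_sum, h1, mul_one]

end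

theorem con1 : S_CON1 := by
  intro V _ _ e ω A δ n x h0 h1
  have hDS : ∀ k, Pool.Agent.Q68.LC.DS (PP e δ k) := fun k => Pool.Agent.Q68.LC.DS_TT e _ ∅ h0 h1 k
  induction n with
  | zero =>
    unfold cc
    have : PP e δ 0 = TT e ω A δ 0 := rfl
    rw [this]
    simp
  | succ n ih =>
    have hM := Pool.Agent.Q68.LC.DS_Mx e ω A h0 h1 n
    have h2 : ∀ y, PP e δ (n + 1) x y - TT e ω A δ (n + 1) x y =
        (∑ z, PP e δ n x z * fr δ (e n) z y - ∑ z, PP e δ n x z * Mx e ω A δ n z y) +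
        ∑ z, (PP e δ n x z - TT e ω A δ n x z) * Mx e ω A δ n z y := by
      intro y
      rw [PP_succ]
      rw [show TT e ω A δ (n + 1) = TT e ω A δ n * Mx e ω A δ n from rfl]
      rw [Matrix.mul_apply, Matrix.mul_apply]
      simp only [sub_mul]
      rw [sum_sub_distrib]
      ring
    have h3 : ∑ y, |PP e δ (n + 1) x y - TT e ω A δ (n + 1) x y| ≤
        ∑ y, |∑ z, PP e δ n x z * fr δ (e n) z y - ∑ z, PP e δ n x z * Mx e ω A δ n z y| +
        ∑ y, |∑ z, (PP e δ n x z - TT e ω A δ n x z) * Mx e ω A δ n z y| := by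
      rw [← sum_add_distrib]
      apply sum_le_sum
      intro y _
      rw [h2]
      exact abs_add_le _ _
    have h4 := step_l1 e ω A δ n h0 h1 (fun z => PP e δ n x z) (fun z => (hDS n).nn x z)
    have h5 := l1_stoch (fun z => PP e δ n x z - TT e ω A δ n x z) (Mx e ω A δ n) hM.nn hM.row
    have h6 : cc e ω A δ (n + 1) x = cc e ω A δ n x + (if tch e ω A n then
        2 * ((if ω n then 1 else δ) * (PP e δ n x (e n).1 + PP e δ n x (e n).2)) else 0) := by
      unfold cc
      rw [sum_range_succ, mul_add]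
      congr 1
      split_ifs <;> ring
    rw [h6]
    linarith

end Pool.Agent.Q151.LC
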