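import Pool.Agent.Q151.LC.Walk
import Pool.Agent.Q292.LC.Stm3

/-! Project LC: job CON2, sum of the contact numbers over a ball. -/

set_option autoImplicit false

namespace Pool.Agent.Q151.LC

open Finset Equiv Matrix Q292.LC

lemma sum_units (N u : ℕ) (f : ℕ → ℝ) : ∑ k ∈ range (u * N), f k = ∑ j ∈ range u, ∑ m ∈ range N, f (j * N + m) := by
  induction u with
  | zero => simp
  | succ u ih => rw [Nat.succ_mul, sum_range_add, sum_range_succ, ih]

section torus
variable {d L : ℕ} [NeZero L]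

/-- total weight of the touching steps of a particle in a unit -/
lemma wt_unit (hTCH : S_TCH) (hL : 3 ≤ L) (σ : ℕ → (Fin d → ZMod L) × Fin d) (hσ : Per σ) (ω : ℕ → Bool)
    (δ : ℝ) (q ρ j : ℕ) (a : Fin d → ZMod L) (h0 : 0 < δ) (h2 : 2 * d * δ ≤ 1) (hq : δ * q ≤ 2)
    (hJ : jumps (ed ∘ σ) ω (j * (q * ms d L)) ((j + 1) * (q * ms d L)) a ≤ ρ) :
    ∑ m ∈ range (q * ms d L), (if tch (ed ∘ σ) ω {a} (j * (q * ms d L) + m) then
      (if ω (j * (q * ms d L) + m) then (1 : ℝ) else δ) else 0) ≤ 2 * ρ + 4 * d := by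
  set N := q * ms d L with hN
  set i := j * N with hi
  have hsh : sh i (ed ∘ σ) = ed ∘ σ := by
    rw [hi, hN, ← mul_assoc]; exact sh_per hσ _
  have e1 : (j + 1) * N = i + N := by rw [hi]; ring
  rw [e1, jumps_shift, hsh] at hJ
  have ht := hTCH d L hL σ hσ (sh i ω) q (gp (ed ∘ σ) ω i a)
  rw [← hN] at ht
  set J := jumps (ed ∘ σ) (sh i ω) 0 N (gp (ed ∘ σ) ω i a) with hJd
  have h3 : ∀ m ∈ range N, (if tch (ed ∘ σ) ω {a} (i + m) then (if ω (i + m) then (1 : ℝ) else δ) else 0) ≤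
      (if (sh i ω) m = true ∧ tch (ed ∘ σ) (sh i ω) {gp (ed ∘ σ) ω i a} m then 1 else 0) +
      δ * (if tch (ed ∘ σ) (sh i ω) {gp (ed ∘ σ) ω i a} m then 1 else 0) := by
    intro m _
    have h4 := tch_shift (ed ∘ σ) ω a i m
    rw [hsh] at h4
    have h5 : sh i ω m = ω (i + m) := by unfold sh; rw [Nat.add_comm]
    rw [h5]
    by_cases ht : tch (ed ∘ σ) ω {a} (i + m)
    · have ht' := h4.1 ht
      rw [if_pos ht, if_pos ht']
      by_cases ho : ω (i + m) = true
      · rw [if_pos ho, if_pos ⟨ho, ht'⟩]; linarith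
      · rw [if_neg ho, if_neg (by tauto)]; linarith
    · rw [if_neg ht, if_neg (fun h => ht (h4.2 h.2)), if_neg (fun h => ht (h4.2 h))]
      linarith
  refine (sum_le_sum h3).trans ?_
  rw [sum_add_distrib, ← mul_sum, sum_boole, sum_boole]
  have h4 : ((((range N).filter (fun m => (sh i ω) m = true ∧ tch (ed ∘ σ) (sh i ω) {gp (ed ∘ σ) ω i a} m)).card : ℕ) : ℝ) = J := by
    rw [hJd]
    unfold jumps
    rw [range_eq_Ico]
  rw [h4]
  have h5 : ((((range N).filter (fun k => tch (ed ∘ σ) (sh i ω) {gp (ed ∘ σ) ω i a} k)).card : ℕ) : ℝ) ≤ 2 * d * (q + J) := by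
    exact_mod_cast ht
  have h6 : (J : ℝ) ≤ ρ := by exact_mod_cast hJ
  have h7 := mul_le_mul_of_nonneg_left h5 h0.le
  have hd0 : (0 : ℝ) ≤ d := Nat.cast_nonneg _
  have hJ0 : (0 : ℝ) ≤ J := Nat.cast_nonneg _
  have h8 : δ * (2 * d * (q + J)) ≤ 4 * d + J := by
    have e : δ * (2 * d * (q + J)) = 2 * d * (δ * q) + (2 * d * δ) * J := by ring
    rw [e]
    nlinarith
  linarith

theorem con2 (hTCH : S_TCH) : S_CON2 := by
  classical
  intro d L _ hd hL σ hσ ω A δ τ q u ρ B D z h0 h2 hq hτ hJ hP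
  set N := q * ms d L with hN
  have hd1 : (1 : ℝ) ≤ d := by exact_mod_cast hd
  have hδ1 : δ ≤ 1 := by nlinarith
  have hDS : ∀ k, Pool.Agent.Q68.LC.DS (PP (ed ∘ σ) δ k) := fun k => Pool.Agent.Q68.LC.DS_TT (ed ∘ σ) _ ∅ h0.le hδ1 k
  set F : ℕ → (Fin d → ZMod L) → ℝ := fun k y => ∑ x ∈ bal z B, PP (ed ∘ σ) δ k x y with hF
  have hF0 : ∀ k y, 0 ≤ F k y := fun k y => sum_nonneg fun x _ => (hDS k).nn x y
  have hF1 : ∀ k y, F k y ≤ 1 := fun k y => by
    rw [← (hDS k).col y]
    exact sum_le_sum_of_subset_of_nonneg (subset_univ _) fun x _ _ => (hDS k).nn x y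
  set w : ℕ → ℝ := fun k => if ω k then 1 else δ with hw
  have hw0 : ∀ k, 0 ≤ w k := fun k => by rw [hw]; simp only; split_ifs <;> linarith
  set G : ℕ → ℝ := fun k => F k ((ed ∘ σ) k).1 + F k ((ed ∘ σ) k).2 with hG
  have hG0 : ∀ k, 0 ≤ G k := fun k => add_nonneg (hF0 _ _) (hF0 _ _)
  -- (1)
  have h1 : ∑ x ∈ bal z B, cc (ed ∘ σ) ω A δ (u * N) x =
      2 * ∑ k ∈ range (u * N), (if tch (ed ∘ σ) ω A k then w k * G k else 0) := by
    unfold cc
    rw [← mul_sum, sum_comm]
    congr 1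
    apply sum_congr rfl
    intro k _
    by_cases ht : tch (ed ∘ σ) ω A k
    · simp only [if_pos ht]
      rw [← mul_sum, sum_add_distrib]
    · simp only [if_neg ht]
      exact sum_const_zero
  -- (2)
  have h3 : ∀ k, (if tch (ed ∘ σ) ω A k then w k * G k else 0) ≤ ∑ a ∈ A, (if tch (ed ∘ σ) ω {a} k then w k * G k else 0) := by
    intro k
    have hnn : ∀ a ∈ A, 0 ≤ (if tch (ed ∘ σ) ω {a} k then w k * G k else 0) := by
      intro a _
      split_ifs
      · exact mul_nonneg (hw0 k) (hG0 k)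
      · exact le_refl _
    split_ifs with ht
    · obtain ⟨a, ha, hta⟩ := tch_exists.1 ht
      refine le_trans (le_of_eq ?_) (single_le_sum hnn ha)
      rw [if_pos hta]
    · exact sum_nonneg hnn
  have h4 : ∑ k ∈ range (u * N), (if tch (ed ∘ σ) ω A k then w k * G k else 0) ≤
      ∑ a ∈ A, ∑ j ∈ range u, ∑ m ∈ range N, (if tch (ed ∘ σ) ω {a} (j * N + m) then w (j * N + m) * G (j * N + m) else 0) := by
    refine (sum_le_sum fun k _ => h3 k).trans (le_of_eq ?_)
    rw [sum_comm]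
    apply sum_congr rfl
    intro a _
    rw [sum_units]
  -- (4)
  have h5 : ∀ a ∈ A, ∀ j ∈ range u, ∑ m ∈ range N, (if tch (ed ∘ σ) ω {a} (j * N + m) then w (j * N + m) * G (j * N + m) else 0) ≤
      (4 * ρ + 8 * d) * ((if gp (ed ∘ σ) ω (j * N) a ∈ bal z (B + D + ρ + 1) then 1 else 0) + τ) := by
    intro a ha j hj
    rw [mem_range] at hj
    have hJa := hJ j hj a ha
    have hwt := wt_unit hTCH hL σ hσ ω δ q ρ j a h0 h2 hq hJa
    rw [← hN] at hwt
    set θ : ℝ := (if gp (ed ∘ σ) ω (j * N) a ∈ bal z (B + D + ρ + 1) then 1 else 0) + τ with hθ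
    have hθ0 : 0 ≤ θ := by rw [hθ]; split_ifs <;> linarith
    have hend : ∀ m, m < N → tch (ed ∘ σ) ω {a} (j * N + m) → G (j * N + m) ≤ 2 * θ := by
      intro m hm ht
      by_cases hin : gp (ed ∘ σ) ω (j * N) a ∈ bal z (B + D + ρ + 1)
      · rw [hθ, if_pos hin]
        have g1 := hF1 (j * N + m) ((ed ∘ σ) (j * N + m)).1
        have g2 := hF1 (j * N + m) ((ed ∘ σ) (j * N + m)).2
        rw [hG]
        simp only
        linarith
      · rw [hθ, if_neg hin, zero_add]
        rw [mem_bal, not_le] at hin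
        have hk : j * N + m ≤ u * N := by
          have : (j + 1) * N ≤ u * N := Nat.mul_le_mul_right _ (by omega)
          have e : (j + 1) * N = j * N + N := by ring
          omega
        have hmove := td_jumps σ ω (j * N) m a
        have hmove2 : jumps (ed ∘ σ) ω (j * N) (j * N + m) a ≤ ρ := by
          refine le_trans (jumps_mono (ed ∘ σ) ω a (le_refl _) ?_) hJa
          have e : (j + 1) * N = j * N + N := by ring
          omega
        have hed := td_ed (σ (j * N + m))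
        have hpt : ∀ y, td y (gp (ed ∘ σ) ω (j * N + m) a) ≤ 1 → F (j * N + m) y ≤ τ := by
          intro y hy
          refine le_trans ?_ (hP (j * N + m) hk y)
          apply sum_le_sum_of_subset_of_nonneg
          · intro x hx
            rw [mem_bal] at hx
            rw [mem_filter]
            refine ⟨mem_univ _, ?_⟩
            have t1 := td_tri z x (gp (ed ∘ σ) ω (j * N) a)
            have t2 := td_tri x y (gp (ed ∘ σ) ω (j * N) a)
            have t3 := td_tri y (gp (ed ∘ σ) ω (j * N + m) a) (gp (ed ∘ σ) ω (j * N) a)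
            omega
          · intro x _ _
            exact (hDS _).nn _ _
        have g1 : F (j * N + m) ((ed ∘ σ) (j * N + m)).1 ≤ τ := by
          apply hpt
          rcases tch_single.1 ht with h | h
          · rw [h, td_self]; exact Nat.zero_le _
          · rw [h]; exact hed
        have g2 : F (j * N + m) ((ed ∘ σ) (j * N + m)).2 ≤ τ := by
          apply hpt
          rcases tch_single.1 ht with h | h
          · rw [h, td_comm]; exact hed
          · rw [h, td_self]; exact Nat.zero_le _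
        rw [hG]
        simp only
        linarith
    have h6 : ∀ m ∈ range N, (if tch (ed ∘ σ) ω {a} (j * N + m) then w (j * N + m) * G (j * N + m) else 0) ≤
        2 * θ * (if tch (ed ∘ σ) ω {a} (j * N + m) then (if ω (j * N + m) then (1 : ℝ) else δ) else 0) := by
      intro m hm
      rw [mem_range] at hm
      split_ifs with ht ho ho
      · have := mul_le_mul_of_nonneg_left (hend m hm ht) (hw0 (j * N + m))
        have e : w (j * N + m) = 1 := by rw [hw]; simp only; rw [if_pos ho]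
        rw [e] at this ⊢
        linarith
      · have := mul_le_mul_of_nonneg_left (hend m hm ht) (hw0 (j * N + m))
        have e : w (j * N + m) = δ := by rw [hw]; simp only; rw [if_neg ho]
        rw [e] at this ⊢
        linarith
      · simp
    refine (sum_le_sum h6).trans ?_
    rw [← mul_sum]
    calc 2 * θ * ∑ m ∈ range N, (if tch (ed ∘ σ) ω {a} (j * N + m) then (if ω (j * N + m) then (1 : ℝ) else δ) else 0)
        ≤ 2 * θ * (2 * ρ + 4 * d) := mul_le_mul_of_nonneg_left hwt (by linarith)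
      _ = (4 * ρ + 8 * d) * θ := by ring
  rw [h1]
  have h6 : ∑ a ∈ A, ∑ j ∈ range u, ∑ m ∈ range N, (if tch (ed ∘ σ) ω {a} (j * N + m) then w (j * N + m) * G (j * N + m) else 0) ≤
      ∑ a ∈ A, ∑ j ∈ range u, (4 * ρ + 8 * d) * ((if gp (ed ∘ σ) ω (j * N) a ∈ bal z (B + D + ρ + 1) then 1 else 0) + τ) :=
    sum_le_sum fun a ha => sum_le_sum fun j hj => h5 a ha j hj
  have h7 : ∑ a ∈ A, ∑ j ∈ range u, (4 * ρ + 8 * d) * ((if gp (ed ∘ σ) ω (j * N) a ∈ bal z (B + D + ρ + 1) then (1 : ℝ) else 0) + τ) =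
      (4 * ρ + 8 * d) * ∑ j ∈ range u, (((((A.image (gp (ed ∘ σ) ω (j * N))) ∩ bal z (B + D + ρ + 1)).card : ℕ) : ℝ) + τ * A.card) := by
    rw [sum_comm, mul_sum]
    apply sum_congr rfl
    intro j _
    rw [← mul_sum, sum_add_distrib, sum_const, nsmul_eq_mul, sum_boole]
    congr 2
    · congr 1
      rw [← filter_mem_eq_inter, filter_image, card_image_of_injective _ (gp (ed ∘ σ) ω (j * N)).injective]
    · ring
  have h8 := h4.trans (h6.trans (le_of_eq h7))
  calc 2 * ∑ k ∈ range (u * N), (if tch (ed ∘ σ) ω A k then w k * G k else 0) ≤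
        2 * ((4 * ρ + 8 * d) * ∑ j ∈ range u, (((((A.image (gp (ed ∘ σ) ω (j * N))) ∩ bal z (B + D + ρ + 1)).card : ℕ) : ℝ) + τ * A.card)) := by
        linarith
    _ = _ := by ring

end torus

end Pool.Agent.Q151.LC
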